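import Mathlib

namespace Pool.Agent.Results.MP_209919_co.InfiniteRational

/-- All distances between distinct points of `X` are rational. -/
def IsRationalSet {d : ℕ} (X : Set (EuclideanSpace ℝ (Fin d))) : Prop :=
  ∀ x ∈ X, ∀ y ∈ X, x ≠ y → ∃ q : ℚ, ‖x - y‖ = (q : ℝ)

/-- `X` is contained in no (affine) hyperplane `{x | ⟪v, x⟫ = a}`, `v ≠ 0`. -/
def NotInHyperplane {d : ℕ} (X : Set (EuclideanSpace ℝ (Fin d))) : Prop :=
  ∀ (v : EuclideanSpace ℝ (Fin d)) (a : ℝ), v ≠ 0 → ¬ X ⊆ {x | inner ℝ v x = a}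

/-- The sphere of centre `c` and radius `ρ` contains an infinite rational set that is contained in
no hyperplane. -/
def HasInfiniteRational {d : ℕ} (c : EuclideanSpace ℝ (Fin d)) (ρ : ℝ) : Prop :=
  ∃ X : Set (EuclideanSpace ℝ (Fin d)), X ⊆ {x | ‖x - c‖ = ρ} ∧ X.Infinite ∧
    IsRationalSet X ∧ NotInHyperplane X

theorem norm_sq {d : ℕ} (x : EuclideanSpace ℝ (Fin d)) : ‖x‖ ^ 2 = ∑ i, (x i) ^ 2 := by
  rw [EuclideanSpace.norm_sq_eq]
  apply Finset.sum_congr rfl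
  intro i _
  rw [Real.norm_eq_abs, sq_abs]

theorem inner_eq {d : ℕ} (x y : EuclideanSpace ℝ (Fin d)) : inner ℝ x y = ∑ i, x i * y i := by
  rw [PiLp.inner_apply]
  apply Finset.sum_congr rfl
  intro i _
  simp [mul_comm]

/-- Translation to the centre `0`. -/
theorem translate {d : ℕ} {c : EuclideanSpace ℝ (Fin d)} {ρ : ℝ}
    (h : HasInfiniteRational (0 : EuclideanSpace ℝ (Fin d)) ρ) : HasInfiniteRational c ρ := by
  obtain ⟨X, hX, hinf, hrat, hh⟩ := h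
  refine ⟨(fun x => x + c) '' X, ?_, ?_, ?_, ?_⟩
  · rintro _ ⟨x, hx, rfl⟩
    have := hX hx
    simpa using this
  · exact hinf.image (fun a _ b _ hab => by simpa using hab)
  · rintro _ ⟨x, hx, rfl⟩ _ ⟨y, hy, rfl⟩ hne
    have := hrat x hx y hy (fun h => hne (by rw [h]))
    simpa using this
  · intro v a hv hsub
    refine hh v (a - inner ℝ v c) hv ?_
    intro x hx
    have := hsub ⟨x, hx, rfl⟩
    simp only [Set.mem_setOf_eq, inner_add_right] at this ⊢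
    linarith

/-! ### The circle -/

/-- The point of the circle used in the base case. -/
noncomputable def cpt (ρ c s : ℝ) : EuclideanSpace ℝ (Fin 2) :=
  WithLp.toLp 2 ![ρ * (c ^ 2 - (s / ρ) ^ 2), 2 * c * s]

theorem base {ρ : ℝ} (hρ : 0 < ρ) {r : ℚ} (hr : ρ ^ 2 = (r : ℝ)) :
    HasInfiniteRational (0 : EuclideanSpace ℝ (Fin 2)) ρ := by
  have hr0 : (0 : ℝ) < r := by rw [← hr]; positivity
  have hr0' : (0 : ℚ) < r := by exact_mod_cast hr0
  let cc : ℚ → ℚ := fun t => (r - t ^ 2) / (r + t ^ 2)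
  let ss : ℚ → ℚ := fun t => 2 * r * t / (r + t ^ 2)
  have hden : ∀ t : ℚ, (r : ℝ) + (t : ℝ) ^ 2 ≠ 0 := fun t => by positivity
  have hccr : ∀ t : ℚ, ((cc t : ℚ) : ℝ) = ((r : ℝ) - (t : ℝ) ^ 2) / ((r : ℝ) + (t : ℝ) ^ 2) := by
    intro t; simp only [cc]; push_cast; ring
  have hssr : ∀ t : ℚ, ((ss t : ℚ) : ℝ) = 2 * (r : ℝ) * (t : ℝ) / ((r : ℝ) + (t : ℝ) ^ 2) := by
    intro t; simp only [ss]; push_cast; ring
  have hcs : ∀ t : ℚ, ((cc t : ℚ) : ℝ) ^ 2 + ((ss t : ℚ) : ℝ) ^ 2 / ρ ^ 2 = 1 := by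
    intro t
    rw [hccr, hssr, hr]
    have := hden t
    field_simp
    ring
  let P : ℚ → EuclideanSpace ℝ (Fin 2) := fun t => cpt ρ (cc t) (ss t)
  have hdist : ∀ t t' : ℚ, ‖P t - P t'‖ ^ 2 =
      (2 * (((ss t : ℚ) : ℝ) * (cc t' : ℚ) - (cc t : ℚ) * (ss t' : ℚ))) ^ 2 := by
    intro t t'
    rw [norm_sq, Fin.sum_univ_two]
    simp only [P, cpt, PiLp.sub_apply, Matrix.cons_val_zero, Matrix.cons_val_one]
    have h1 := hcs t
    have h2 := hcs t'
    set c := ((cc t : ℚ) : ℝ)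
    set s := ((ss t : ℚ) : ℝ)
    set c' := ((cc t' : ℚ) : ℝ)
    set s' := ((ss t' : ℚ) : ℝ)
    have e1 : s ^ 2 = ρ ^ 2 * (1 - c ^ 2) := by
      have : s ^ 2 / ρ ^ 2 = 1 - c ^ 2 := by linarith
      field_simp at this
      linarith
    have e2 : s' ^ 2 = ρ ^ 2 * (1 - c' ^ 2) := by
      have : s' ^ 2 / ρ ^ 2 = 1 - c' ^ 2 := by linarith
      field_simp at this
      linarith
    have e3 : (s / ρ) ^ 2 = 1 - c ^ 2 := by rw [div_pow, e1]; field_simp
    have e4 : (s' / ρ) ^ 2 = 1 - c' ^ 2 := by rw [div_pow, e2]; field_simp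
    rw [e3, e4]
    have : (2 * c * s - 2 * c' * s') ^ 2 =
        4 * c ^ 2 * s ^ 2 - 8 * (c * s * c' * s') + 4 * c' ^ 2 * s' ^ 2 := by ring
    rw [this, e1, e2]
    have : (2 * (s * c' - c * s')) ^ 2 =
        4 * s ^ 2 * c' ^ 2 - 8 * (c * s * c' * s') + 4 * c ^ 2 * s' ^ 2 := by ring
    rw [this, e1, e2]
    ring
  have hnorm : ∀ t, ‖P t‖ = ρ := by
    intro t
    have h1 := hcs t
    have h3 : ‖P t‖ ^ 2 = ρ ^ 2 := by
      rw [norm_sq, Fin.sum_univ_two]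
      simp only [P, cpt, Matrix.cons_val_zero, Matrix.cons_val_one]
      set c := ((cc t : ℚ) : ℝ)
      set s := ((ss t : ℚ) : ℝ)
      have e1 : s ^ 2 = ρ ^ 2 * (1 - c ^ 2) := by
        have : s ^ 2 / ρ ^ 2 = 1 - c ^ 2 := by linarith
        field_simp at this
        linarith
      have e3 : (s / ρ) ^ 2 = 1 - c ^ 2 := by rw [div_pow, e1]; field_simp
      rw [e3]
      have : (2 * c * s) ^ 2 = 4 * c ^ 2 * s ^ 2 := by ring
      rw [this, e1]
      ring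
    exact (pow_left_inj₀ (norm_nonneg _) hρ.le two_ne_zero).mp h3
  refine ⟨Set.range P, ?_, ?_, ?_, ?_⟩
  · rintro _ ⟨t, rfl⟩
    simpa using hnorm t
  · have hinj : Set.InjOn P (Set.Ioi (0 : ℚ)) := by
      intro t ht t' ht' h
      have h1 := hdist t t'
      rw [h, sub_self, norm_zero] at h1
      have h2 : ((ss t : ℚ) : ℝ) * (cc t' : ℚ) - (cc t : ℚ) * (ss t' : ℚ) = 0 := by
        have : (2 * (((ss t : ℚ) : ℝ) * (cc t' : ℚ) - (cc t : ℚ) * (ss t' : ℚ))) = 0 := by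
          apply pow_eq_zero_iff (two_ne_zero) |>.mp
          rw [← h1]; norm_num
        linarith
      rw [hccr, hccr, hssr, hssr] at h2
      have d1 := hden t
      have d2 := hden t'
      field_simp at h2
      have h3 : ((t : ℝ) - t') * ((r : ℝ) + t * t') = 0 := by
        have : (r : ℝ) ≠ 0 := hr0.ne'
        nlinarith
      have ht0 : (0 : ℝ) < t := by exact_mod_cast ht
      have ht0' : (0 : ℝ) < t' := by exact_mod_cast ht'
      have h4 : (r : ℝ) + t * t' ≠ 0 := by positivity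
      have h5 := (mul_eq_zero.mp h3).resolve_right h4
      have : (t : ℝ) = t' := by linarith
      exact_mod_cast this
    have h1 : (P '' Set.Ioi (0 : ℚ)).Infinite := (Set.Ioi_infinite 0).image hinj
    exact h1.mono (Set.image_subset_range _ _)
  · rintro _ ⟨t, rfl⟩ _ ⟨t', rfl⟩ _
    refine ⟨|2 * (ss t * cc t' - cc t * ss t')|, ?_⟩
    have h1 := hdist t t'
    push_cast
    rw [← Real.sqrt_sq_eq_abs, ← h1, Real.sqrt_sq (norm_nonneg _)]
  · intro v a hv hsub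
    obtain ⟨t, ht0, htr⟩ : ∃ t : ℚ, t ≠ 0 ∧ r - t ^ 2 ≠ 0 := by
      by_cases h1 : r - 1 ^ 2 = 0
      · exact ⟨2, by norm_num, by intro h; nlinarith⟩
      · exact ⟨1, one_ne_zero, h1⟩
    have e0 := hsub ⟨0, rfl⟩
    have e1 := hsub ⟨t, rfl⟩
    have e2 := hsub ⟨-t, rfl⟩
    simp only [Set.mem_setOf_eq, inner_eq, Fin.sum_univ_two, P, cpt, Matrix.cons_val_zero,
      Matrix.cons_val_one, hccr, hssr] at e0 e1 e2
    push_cast at e0 e1 e2
    have d1 := hden t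
    have ht0' : (t : ℝ) ≠ 0 := by exact_mod_cast ht0
    have htr' : (r : ℝ) - (t : ℝ) ^ 2 ≠ 0 := by exact_mod_cast htr
    have hneg : (-(t : ℝ)) ^ 2 = (t : ℝ) ^ 2 := by ring
    rw [hneg] at e2
    have hs0 : (2 * (r : ℝ) * t / ((r : ℝ) + (t : ℝ) ^ 2)) ≠ 0 := by
      apply div_ne_zero _ d1
      exact mul_ne_zero (mul_ne_zero two_ne_zero hr0.ne') ht0'
    have hc0 : ((r : ℝ) - (t : ℝ) ^ 2) / ((r : ℝ) + (t : ℝ) ^ 2) ≠ 0 := div_ne_zero htr' d1
    have hsneg : 2 * (r : ℝ) * -(t : ℝ) / ((r : ℝ) + (t : ℝ) ^ 2)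
        = -(2 * (r : ℝ) * t / ((r : ℝ) + (t : ℝ) ^ 2)) := by ring
    rw [hsneg] at e2
    set s := (2 * (r : ℝ) * t / ((r : ℝ) + (t : ℝ) ^ 2)) with hs
    set c := ((r : ℝ) - (t : ℝ) ^ 2) / ((r : ℝ) + (t : ℝ) ^ 2) with hc
    have hcs' : c ^ 2 + s ^ 2 / ρ ^ 2 = 1 := by
      have := hcs t
      rwa [hccr, hssr] at this
    have hv1 : v 1 = 0 := by
      have h1 : v 1 * (c * s) = 0 := by
        have h2 : (-s / ρ) ^ 2 = (s / ρ) ^ 2 := by ring
        rw [h2] at e2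
        linarith
      exact (mul_eq_zero.mp h1).resolve_right (mul_ne_zero hc0 hs0)
    have hv0 : v 0 = 0 := by
      rw [hv1] at e0 e1
      have h3 : ((r : ℝ) - 0 ^ 2) / ((r : ℝ) + 0 ^ 2) = 1 := by
        field_simp
        ring
      rw [h3] at e0
      simp only [mul_zero, zero_div, zero_mul, add_zero] at e0 e1
      have h5 : (s / ρ) ^ 2 ≠ 0 := pow_ne_zero _ (div_ne_zero hs0 hρ.ne')
      have h6 : (s / ρ) ^ 2 = 1 - c ^ 2 := by rw [div_pow]; linarith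
      have h7 : v 0 * (ρ * (s / ρ) ^ 2) = 0 := by
        rw [h6] at e1 ⊢
        ring_nf at e0 e1 ⊢
        linarith
      exact (mul_eq_zero.mp h7).resolve_right (mul_ne_zero hρ.ne' h5)
    apply hv
    ext i
    fin_cases i
    · exact hv0
    · exact hv1

/-! ### The induction step -/

/-- Embedding of `ℝ^d` as the hyperplane at height `h` of `ℝ^(d+1)`. -/
noncomputable def emb {d : ℕ} (h : ℝ) (x : EuclideanSpace ℝ (Fin d)) :
    EuclideanSpace ℝ (Fin (d + 1)) := WithLp.toLp 2 (Fin.cons h (fun i => x i))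

theorem emb_zero {d : ℕ} (h : ℝ) (x : EuclideanSpace ℝ (Fin d)) : emb h x 0 = h := rfl

theorem emb_succ {d : ℕ} (h : ℝ) (x : EuclideanSpace ℝ (Fin d)) (i : Fin d) :
    emb h x i.succ = x i := rfl

theorem norm_emb_sub {d : ℕ} (h k : ℝ) (x y : EuclideanSpace ℝ (Fin d)) :
    ‖emb h x - emb k y‖ ^ 2 = (h - k) ^ 2 + ‖x - y‖ ^ 2 := by
  rw [norm_sq, norm_sq, Fin.sum_univ_succ]
  simp only [PiLp.sub_apply, emb_zero, emb_succ]

theorem norm_emb {d : ℕ} (h : ℝ) (x : EuclideanSpace ℝ (Fin d)) :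
    ‖emb h x‖ ^ 2 = h ^ 2 + ‖x‖ ^ 2 := by
  rw [norm_sq, norm_sq, Fin.sum_univ_succ]
  simp only [emb_zero, emb_succ]

theorem step {d : ℕ} (ih : ∀ ρ : ℝ, 0 < ρ → (∃ q : ℚ, ρ ^ 2 = (q : ℝ)) →
      HasInfiniteRational (0 : EuclideanSpace ℝ (Fin d)) ρ)
    {ρ : ℝ} (hρ : 0 < ρ) {r : ℚ} (hr : ρ ^ 2 = (r : ℝ)) :
    HasInfiniteRational (0 : EuclideanSpace ℝ (Fin (d + 1))) ρ := by
  obtain ⟨t, ht0, ht1⟩ := exists_rat_btwn (show (0 : ℝ) < 2 * ρ by linarith)
  set h : ℝ := ρ - t ^ 2 / (2 * ρ) with hh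
  have hpos : 0 < (t : ℝ) ^ 2 - t ^ 4 / (4 * ρ ^ 2) := by
    have h1 : (t : ℝ) ^ 2 < 4 * ρ ^ 2 := by nlinarith
    have h2 : (t : ℝ) ^ 4 / (4 * ρ ^ 2) < (t : ℝ) ^ 2 := by
      rw [div_lt_iff₀ (by positivity)]
      have : (0 : ℝ) < (t : ℝ) ^ 2 := by positivity
      nlinarith
    linarith
  set ρ₀ : ℝ := Real.sqrt ((t : ℝ) ^ 2 - t ^ 4 / (4 * ρ ^ 2)) with hρ₀
  have hρ₀sq : ρ₀ ^ 2 = (t : ℝ) ^ 2 - t ^ 4 / (4 * ρ ^ 2) := Real.sq_sqrt hpos.le
  obtain ⟨X, hX, hinf, hrat, hhyp⟩ := ih ρ₀ (Real.sqrt_pos.mpr hpos)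
    ⟨t ^ 2 - t ^ 4 / (4 * r), by rw [hρ₀sq, hr]; push_cast; ring⟩
  have hsum : h ^ 2 + ρ₀ ^ 2 = ρ ^ 2 := by
    rw [hρ₀sq, hh]
    field_simp
    ring
  have hdiff : (ρ - h) ^ 2 + ρ₀ ^ 2 = t ^ 2 := by
    rw [hρ₀sq, hh]
    field_simp
    ring
  have hXn : ∀ x ∈ X, ‖x‖ = ρ₀ := fun x hx => by simpa using hX hx
  have hdp : ∀ x ∈ X, ‖emb h x - emb ρ 0‖ = t := by
    intro x hx
    have h1 := norm_emb_sub h ρ x 0
    rw [sub_zero, hXn x hx] at h1
    have h2 : ‖emb h x - emb ρ (0 : EuclideanSpace ℝ (Fin d))‖ ^ 2 = (t : ℝ) ^ 2 := by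
      rw [h1, ← hdiff]; ring
    exact (pow_left_inj₀ (norm_nonneg _) ht0.le two_ne_zero).mp h2
  refine ⟨insert (emb ρ 0) (emb h '' X), ?_, ?_, ?_, ?_⟩
  · rintro y (rfl | ⟨x, hx, rfl⟩)
    · have h1 := norm_emb ρ (0 : EuclideanSpace ℝ (Fin d))
      rw [norm_zero] at h1
      have h2 : ‖emb ρ (0 : EuclideanSpace ℝ (Fin d))‖ ^ 2 = ρ ^ 2 := by rw [h1]; ring
      have h3 := (pow_left_inj₀ (norm_nonneg _) hρ.le two_ne_zero).mp h2
      simpa using h3
    · have h1 := norm_emb h x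
      rw [hXn x hx, hsum] at h1
      have h3 := (pow_left_inj₀ (norm_nonneg _) hρ.le two_ne_zero).mp h1
      simpa using h3
  · have hinj : Set.InjOn (emb (d := d) h) X := by
      intro x _ y _ hxy
      have h1 := norm_emb_sub h h x y
      rw [hxy, sub_self, norm_zero] at h1
      have h2 : ‖x - y‖ ^ 2 = 0 := by
        have : (h - h) ^ 2 = 0 := by ring
        rw [this] at h1
        linarith
      have h3 := pow_eq_zero_iff (two_ne_zero) |>.mp h2
      exact sub_eq_zero.mp (norm_eq_zero.mp h3)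
    exact (hinf.image hinj).mono (Set.subset_insert _ _)
  · rintro y (rfl | ⟨x, hx, rfl⟩) z (rfl | ⟨x', hx', rfl⟩) hne
    · exact absurd rfl hne
    · exact ⟨t, by rw [norm_sub_rev]; exact hdp x' hx'⟩
    · exact ⟨t, hdp x hx⟩
    · have hxx : x ≠ x' := fun h => hne (by rw [h])
      obtain ⟨q, hq⟩ := hrat x hx x' hx' hxx
      refine ⟨q, ?_⟩
      have h1 := norm_emb_sub h h x x'
      rw [← hq]
      have h2 : ‖emb h x - emb h x'‖ ^ 2 = ‖x - x'‖ ^ 2 := by rw [h1]; ring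
      exact (pow_left_inj₀ (norm_nonneg _) (norm_nonneg _) two_ne_zero).mp h2
  · intro v a hv hsub
    set v' : EuclideanSpace ℝ (Fin d) := WithLp.toLp 2 (fun i => v i.succ) with hv'
    have hin : ∀ (k : ℝ) (x : EuclideanSpace ℝ (Fin d)),
        inner ℝ v (emb k x) = v 0 * k + inner ℝ v' x := by
      intro k x
      rw [inner_eq, inner_eq, Fin.sum_univ_succ]
      simp only [emb_zero, emb_succ, hv']
    by_cases h0 : v' = 0
    · obtain ⟨x, hx⟩ := hinf.nonempty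
      have e1 := hsub (Set.mem_insert _ _)
      have e2 := hsub (Set.mem_insert_of_mem _ ⟨x, hx, rfl⟩)
      simp only [Set.mem_setOf_eq, hin, h0, inner_zero_left, add_zero] at e1 e2
      have hhρ : h ≠ ρ := by
        intro h4
        rw [h4] at hh
        have : (t : ℝ) ^ 2 / (2 * ρ) ≠ 0 := by positivity
        apply this
        linarith
      have h00 : v 0 = 0 := by
        have : v 0 * (h - ρ) = 0 := by linarith
        exact (mul_eq_zero.mp this).resolve_right (sub_ne_zero.mpr hhρ)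
      apply hv
      ext i
      refine Fin.cases ?_ (fun j => ?_) i
      · exact h00
      · have : v' j = 0 := by rw [h0]; rfl
        exact this
    · refine hhyp v' (a - v 0 * h) h0 ?_
      intro x hx
      have e2 := hsub (Set.mem_insert_of_mem _ ⟨x, hx, rfl⟩)
      simp only [Set.mem_setOf_eq, hin] at e2 ⊢
      linarith

theorem exists_of_two_le {d : ℕ} (hd : 2 ≤ d) : ∀ ρ : ℝ, 0 < ρ → (∃ q : ℚ, ρ ^ 2 = (q : ℝ)) →
    HasInfiniteRational (0 : EuclideanSpace ℝ (Fin d)) ρ := by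
  induction d, hd using Nat.le_induction with
  | base => intro ρ hρ ⟨q, hq⟩; exact base hρ hq
  | succ n hn ih => intro ρ hρ ⟨q, hq⟩; exact step ih hρ hq

/-! ### Necessity -/

theorem two_le_of {d : ℕ} (hd : 0 < d) {c : EuclideanSpace ℝ (Fin d)} {ρ : ℝ}
    (h : HasInfiniteRational c ρ) : 2 ≤ d := by
  by_contra hcon
  have h1 : d = 1 := by omega
  subst h1
  obtain ⟨X, hX, hinf, -, -⟩ := h
  apply hinf
  have hfin : (Set.Finite {x : EuclideanSpace ℝ (Fin 1) |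
      x = WithLp.toLp 2 (fun _ => c 0 + ρ) ∨ x = WithLp.toLp 2 (fun _ => c 0 - ρ)}) := by
    have : {x : EuclideanSpace ℝ (Fin 1) |
      x = WithLp.toLp 2 (fun _ => c 0 + ρ) ∨ x = WithLp.toLp 2 (fun _ => c 0 - ρ)}
      = {WithLp.toLp 2 (fun _ => c 0 + ρ), WithLp.toLp 2 (fun _ => c 0 - ρ)} := by
      ext x; simp
    rw [this]
    exact Set.toFinite _
  apply hfin.subset
  intro x hx
  have h2 : ‖x - c‖ = ρ := hX hx
  have h3 := norm_sq (x - c)
  rw [h2] at h3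
  simp only [Finset.univ_unique, Fin.default_eq_zero, Finset.sum_singleton, PiLp.sub_apply] at h3
  have h4 : (x 0 - c 0 - ρ) * (x 0 - c 0 + ρ) = 0 := by nlinarith
  rcases mul_eq_zero.mp h4 with h5 | h5
  · left
    ext i
    have : i = 0 := Subsingleton.elim _ _
    subst this
    change x 0 = c 0 + ρ
    linarith
  · right
    ext i
    have : i = 0 := Subsingleton.elim _ _
    subst this
    change x 0 = c 0 - ρ
    linarith

theorem rational_sq_of {d : ℕ} {c : EuclideanSpace ℝ (Fin d)} {ρ : ℝ}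
    (h : HasInfiniteRational c ρ) : ∃ q : ℚ, ρ ^ 2 = (q : ℝ) := by
  classical
  obtain ⟨X, hX, hinf, hrat, hhyp⟩ := h
  obtain ⟨x₀, hx₀⟩ := hinf.nonempty
  have hrat' : ∀ x ∈ X, ∀ y ∈ X, ∃ q : ℚ, ‖x - y‖ = (q : ℝ) := by
    intro x hx y hy
    by_cases hxy : x = y
    · exact ⟨0, by rw [hxy]; simp⟩
    · exact hrat x hx y hy hxy
  -- the differences span
  set W : Set (EuclideanSpace ℝ (Fin d)) := (fun x => x - x₀) '' X with hW
  have hspan : Submodule.span ℝ W = ⊤ := by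
    by_contra hne
    have h1 : (Submodule.span ℝ W)ᗮ ≠ ⊥ := by
      intro h2
      exact hne (Submodule.orthogonal_eq_bot_iff.mp h2)
    obtain ⟨v, hv, hv0⟩ := Submodule.exists_mem_ne_zero_of_ne_bot h1
    refine hhyp v (inner ℝ v x₀) hv0 ?_
    intro x hx
    have h2 : inner ℝ (x - x₀) v = 0 :=
      (Submodule.mem_orthogonal _ _).mp hv _ (Submodule.subset_span ⟨x, hx, rfl⟩)
    simp only [Set.mem_setOf_eq]
    rw [real_inner_comm, inner_sub_right] at h2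
    linarith
  obtain ⟨B, hBW, hBspan, hBli⟩ := exists_linearIndependent ℝ W
  rw [hspan] at hBspan
  have hBfin : B.Finite := hBli.setFinite
  haveI : Fintype B := hBfin.fintype
  -- the coordinates of `c - x₀`
  have hc : c - x₀ ∈ Submodule.span ℝ (Set.range ((↑) : B → EuclideanSpace ℝ (Fin d))) := by
    rw [Subtype.range_coe, hBspan]
    trivial
  obtain ⟨lam, hlam⟩ := (Submodule.mem_span_range_iff_exists_fun ℝ).mp hc
  -- rational Gram matrix
  have hgram : ∀ b b' : B, ∃ q : ℚ, inner ℝ (b : EuclideanSpace ℝ (Fin d)) b' = (q : ℝ) := by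
    intro b b'
    obtain ⟨x, hx, hxb⟩ := hBW b.2
    obtain ⟨y, hy, hyb⟩ := hBW b'.2
    obtain ⟨q1, h1⟩ := hrat' x hx x₀ hx₀
    obtain ⟨q2, h2⟩ := hrat' y hy x₀ hx₀
    obtain ⟨q3, h3⟩ := hrat' x hx y hy
    refine ⟨(q1 ^ 2 + q2 ^ 2 - q3 ^ 2) / 2, ?_⟩
    push_cast
    rw [← h1, ← h2, ← h3]
    have h4 : x - y = (b : EuclideanSpace ℝ (Fin d)) - b' := by
      rw [← hxb, ← hyb]; simp
    have h5 : x - x₀ = (b : EuclideanSpace ℝ (Fin d)) := hxb
    have h6 : y - x₀ = (b' : EuclideanSpace ℝ (Fin d)) := hyb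
    rw [h4, h5, h6, norm_sub_sq_real]
    ring
  choose G hG using hgram
  have hvec : ∀ b : B, ∃ q : ℚ, inner ℝ (b : EuclideanSpace ℝ (Fin d)) (c - x₀) = (q : ℝ) := by
    intro b
    obtain ⟨x, hx, hxb⟩ := hBW b.2
    obtain ⟨q1, h1⟩ := hrat' x hx x₀ hx₀
    refine ⟨q1 ^ 2 / 2, ?_⟩
    push_cast
    rw [← h1]
    have h5 : x - x₀ = (b : EuclideanSpace ℝ (Fin d)) := hxb
    have h6 : ‖x - c‖ = ρ := hX hx
    have h7 : ‖x₀ - c‖ = ρ := hX hx₀
    have h8 : x - c = (b : EuclideanSpace ℝ (Fin d)) - (c - x₀) := by rw [← h5]; abel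
    have h9 : ‖x - c‖ ^ 2 = ‖c - x₀‖ ^ 2 := by rw [h6, norm_sub_rev c x₀, h7]
    rw [h8, norm_sub_sq_real] at h9
    rw [h5]
    linarith
  choose g hg using hvec
  -- the matrix equation
  have hinner : ∀ (b : B) (mu : B → ℝ), inner ℝ (b : EuclideanSpace ℝ (Fin d))
      (∑ b', mu b' • (b' : EuclideanSpace ℝ (Fin d)))
      = ((Matrix.of G).map (algebraMap ℚ ℝ)).mulVec mu b := by
    intro b mu
    rw [inner_sum, Matrix.mulVec, dotProduct]
    apply Finset.sum_congr rfl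
    intro b' _
    rw [inner_smul_right, hG]
    simp [mul_comm]
  have hdet : ((Matrix.of G).map (algebraMap ℚ ℝ)).det ≠ 0 := by
    intro h0
    obtain ⟨mu, hmu0, hmu⟩ := Matrix.exists_mulVec_eq_zero_iff.mpr h0
    apply hmu0
    have h1 : ∑ b', mu b' • (b' : EuclideanSpace ℝ (Fin d)) = 0 := by
      rw [← inner_self_eq_zero (𝕜 := ℝ), sum_inner]
      apply Finset.sum_eq_zero
      intro b _
      rw [inner_smul_left, hinner b mu, hmu]
      simp
    have h2 := Fintype.linearIndependent_iff.mp hBli mu h1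
    ext b
    exact h2 b
  have hdetq : (Matrix.of G).det ≠ 0 := by
    intro h0
    apply hdet
    rw [← RingHom.mapMatrix_apply, ← RingHom.map_det, h0, map_zero]
  have hlamq : ∃ lamq : B → ℚ, ∀ b, lam b = (lamq b : ℝ) := by
    refine ⟨(Matrix.of G)⁻¹.mulVec g, ?_⟩
    have h1 : ((Matrix.of G).map (algebraMap ℚ ℝ)).mulVec lam = fun b => ((g b : ℚ) : ℝ) := by
      ext b
      rw [← hinner b lam, hlam, hg]
    have h2 : ((Matrix.of G).map (algebraMap ℚ ℝ)).mulVec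
        (fun b => (((Matrix.of G)⁻¹.mulVec g b : ℚ) : ℝ)) = fun b => ((g b : ℚ) : ℝ) := by
      have h3 : (Matrix.of G).mulVec ((Matrix.of G)⁻¹.mulVec g) = g := by
        rw [Matrix.mulVec_mulVec, Matrix.mul_nonsing_inv _ (isUnit_iff_ne_zero.mpr hdetq),
          Matrix.one_mulVec]
      ext b
      have h4 := congrFun h3 b
      have h5 := congrArg (algebraMap ℚ ℝ) h4
      rw [RingHom.map_mulVec] at h5
      exact h5
    have h6 : ((Matrix.of G).map (algebraMap ℚ ℝ)).mulVec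
        (lam - fun b => (((Matrix.of G)⁻¹.mulVec g b : ℚ) : ℝ)) = 0 := by
      rw [Matrix.mulVec_sub, h1, h2, sub_self]
    by_contra hcon
    push Not at hcon
    obtain ⟨b, hb⟩ := hcon
    apply hdet
    rw [← Matrix.exists_mulVec_eq_zero_iff]
    refine ⟨_, ?_, h6⟩
    intro h7
    have := congrFun h7 b
    simp only [Pi.sub_apply, Pi.zero_apply] at this
    exact hb (sub_eq_zero.mp this)
  obtain ⟨lamq, hlamq⟩ := hlamq
  refine ⟨∑ b, lamq b * g b, ?_⟩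
  have h7 : ‖x₀ - c‖ = ρ := hX hx₀
  rw [← h7, norm_sub_rev, ← real_inner_self_eq_norm_sq]
  conv_lhs => rw [← hlam]
  rw [sum_inner]
  push_cast
  apply Finset.sum_congr rfl
  intro b _
  rw [inner_smul_left, hlam, hg, hlamq]
  simp

/-- The answer to the second question: for `d ≥ 1` and `ρ > 0`, a sphere of radius `ρ` in `ℝ^d`
contains an infinite rational subset not contained in any hyperplane if and only if `d ≥ 2` and
`ρ^2` is rational. -/
theorem result (d : ℕ) (hd : 0 < d) (c : EuclideanSpace ℝ (Fin d)) (ρ : ℝ) (hρ : 0 < ρ) :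
    HasInfiniteRational c ρ ↔ 2 ≤ d ∧ ∃ q : ℚ, ρ ^ 2 = (q : ℝ) :=
  ⟨fun h => ⟨two_le_of hd h, rational_sq_of h⟩,
    fun ⟨h1, h2⟩ => translate (exists_of_two_le h1 ρ hρ h2)⟩

end Pool.Agent.Results.MP_209919_co.InfiniteRational
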